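import Pool.Agent.LKT.Stmts

/-!
# Row WLN of squad LKT: walls which do not exist (generated by a program)
-/

set_option autoImplicit false

namespace Pool.Agent.LKT.H60

open Pool.Agent.LCK

theorem F0 (x : Fin 8 → E3) : F 0 x = -D x 0 1 2 3 := by
  have h : F 0 x = ((-1 : ℤ) : ℝ) * D x 0 1 2 3 := rfl
  rw [h, Int.cast_neg, Int.cast_one, neg_one_mul]

theorem F1 (x : Fin 8 → E3) : F 1 x = D x 0 1 2 4 := by
  have h : F 1 x = ((1 : ℤ) : ℝ) * D x 0 1 2 4 := rfl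
  rw [h, Int.cast_one, one_mul]

theorem F2 (x : Fin 8 → E3) : F 2 x = -D x 0 1 2 5 := by
  have h : F 2 x = ((-1 : ℤ) : ℝ) * D x 0 1 2 5 := rfl
  rw [h, Int.cast_neg, Int.cast_one, neg_one_mul]

theorem F3 (x : Fin 8 → E3) : F 3 x = D x 0 1 2 6 := by
  have h : F 3 x = ((1 : ℤ) : ℝ) * D x 0 1 2 6 := rfl
  rw [h, Int.cast_one, one_mul]

theorem F4 (x : Fin 8 → E3) : F 4 x = -D x 0 1 2 7 := by
  have h : F 4 x = ((-1 : ℤ) : ℝ) * D x 0 1 2 7 := rfl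
  rw [h, Int.cast_neg, Int.cast_one, neg_one_mul]

theorem F5 (x : Fin 8 → E3) : F 5 x = -D x 0 1 3 4 := by
  have h : F 5 x = ((-1 : ℤ) : ℝ) * D x 0 1 3 4 := rfl
  rw [h, Int.cast_neg, Int.cast_one, neg_one_mul]

theorem F6 (x : Fin 8 → E3) : F 6 x = D x 0 1 3 5 := by
  have h : F 6 x = ((1 : ℤ) : ℝ) * D x 0 1 3 5 := rfl
  rw [h, Int.cast_one, one_mul]

theorem F7 (x : Fin 8 → E3) : F 7 x = -D x 0 1 3 6 := by
  have h : F 7 x = ((-1 : ℤ) : ℝ) * D x 0 1 3 6 := rfl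
  rw [h, Int.cast_neg, Int.cast_one, neg_one_mul]

theorem F8 (x : Fin 8 → E3) : F 8 x = D x 0 1 3 7 := by
  have h : F 8 x = ((1 : ℤ) : ℝ) * D x 0 1 3 7 := rfl
  rw [h, Int.cast_one, one_mul]

theorem F9 (x : Fin 8 → E3) : F 9 x = -D x 0 1 4 5 := by
  have h : F 9 x = ((-1 : ℤ) : ℝ) * D x 0 1 4 5 := rfl
  rw [h, Int.cast_neg, Int.cast_one, neg_one_mul]

theorem F10 (x : Fin 8 → E3) : F 10 x = D x 0 1 4 6 := by
  have h : F 10 x = ((1 : ℤ) : ℝ) * D x 0 1 4 6 := rfl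
  rw [h, Int.cast_one, one_mul]

theorem F11 (x : Fin 8 → E3) : F 11 x = -D x 0 1 4 7 := by
  have h : F 11 x = ((-1 : ℤ) : ℝ) * D x 0 1 4 7 := rfl
  rw [h, Int.cast_neg, Int.cast_one, neg_one_mul]

theorem F12 (x : Fin 8 → E3) : F 12 x = -D x 0 1 5 6 := by
  have h : F 12 x = ((-1 : ℤ) : ℝ) * D x 0 1 5 6 := rfl
  rw [h, Int.cast_neg, Int.cast_one, neg_one_mul]

theorem F13 (x : Fin 8 → E3) : F 13 x = D x 0 1 5 7 := by
  have h : F 13 x = ((1 : ℤ) : ℝ) * D x 0 1 5 7 := rfl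
  rw [h, Int.cast_one, one_mul]

theorem F14 (x : Fin 8 → E3) : F 14 x = -D x 0 1 6 7 := by
  have h : F 14 x = ((-1 : ℤ) : ℝ) * D x 0 1 6 7 := rfl
  rw [h, Int.cast_neg, Int.cast_one, neg_one_mul]

theorem F15 (x : Fin 8 → E3) : F 15 x = -D x 0 2 3 4 := by
  have h : F 15 x = ((-1 : ℤ) : ℝ) * D x 0 2 3 4 := rfl
  rw [h, Int.cast_neg, Int.cast_one, neg_one_mul]

theorem F16 (x : Fin 8 → E3) : F 16 x = D x 0 2 3 5 := by
  have h : F 16 x = ((1 : ℤ) : ℝ) * D x 0 2 3 5 := rfl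
  rw [h, Int.cast_one, one_mul]

theorem F17 (x : Fin 8 → E3) : F 17 x = -D x 0 2 3 6 := by
  have h : F 17 x = ((-1 : ℤ) : ℝ) * D x 0 2 3 6 := rfl
  rw [h, Int.cast_neg, Int.cast_one, neg_one_mul]

theorem F18 (x : Fin 8 → E3) : F 18 x = D x 0 2 3 7 := by
  have h : F 18 x = ((1 : ℤ) : ℝ) * D x 0 2 3 7 := rfl
  rw [h, Int.cast_one, one_mul]

theorem F19 (x : Fin 8 → E3) : F 19 x = D x 0 2 4 5 := by
  have h : F 19 x = ((1 : ℤ) : ℝ) * D x 0 2 4 5 := rfl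
  rw [h, Int.cast_one, one_mul]

theorem F20 (x : Fin 8 → E3) : F 20 x = -D x 0 2 5 6 := by
  have h : F 20 x = ((-1 : ℤ) : ℝ) * D x 0 2 5 6 := rfl
  rw [h, Int.cast_neg, Int.cast_one, neg_one_mul]

theorem F21 (x : Fin 8 → E3) : F 21 x = D x 0 2 5 7 := by
  have h : F 21 x = ((1 : ℤ) : ℝ) * D x 0 2 5 7 := rfl
  rw [h, Int.cast_one, one_mul]

theorem F22 (x : Fin 8 → E3) : F 22 x = D x 0 2 6 7 := by
  have h : F 22 x = ((1 : ℤ) : ℝ) * D x 0 2 6 7 := rfl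
  rw [h, Int.cast_one, one_mul]

theorem F23 (x : Fin 8 → E3) : F 23 x = -D x 0 3 4 5 := by
  have h : F 23 x = ((-1 : ℤ) : ℝ) * D x 0 3 4 5 := rfl
  rw [h, Int.cast_neg, Int.cast_one, neg_one_mul]

theorem F24 (x : Fin 8 → E3) : F 24 x = -D x 0 3 4 7 := by
  have h : F 24 x = ((-1 : ℤ) : ℝ) * D x 0 3 4 7 := rfl
  rw [h, Int.cast_neg, Int.cast_one, neg_one_mul]

theorem F25 (x : Fin 8 → E3) : F 25 x = -D x 0 3 6 7 := by
  have h : F 25 x = ((-1 : ℤ) : ℝ) * D x 0 3 6 7 := rfl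
  rw [h, Int.cast_neg, Int.cast_one, neg_one_mul]

theorem F26 (x : Fin 8 → E3) : F 26 x = -D x 0 4 5 6 := by
  have h : F 26 x = ((-1 : ℤ) : ℝ) * D x 0 4 5 6 := rfl
  rw [h, Int.cast_neg, Int.cast_one, neg_one_mul]

theorem F27 (x : Fin 8 → E3) : F 27 x = D x 0 4 5 7 := by
  have h : F 27 x = ((1 : ℤ) : ℝ) * D x 0 4 5 7 := rfl
  rw [h, Int.cast_one, one_mul]

theorem F28 (x : Fin 8 → E3) : F 28 x = D x 0 4 6 7 := by
  have h : F 28 x = ((1 : ℤ) : ℝ) * D x 0 4 6 7 := rfl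
  rw [h, Int.cast_one, one_mul]

theorem F29 (x : Fin 8 → E3) : F 29 x = -D x 0 5 6 7 := by
  have h : F 29 x = ((-1 : ℤ) : ℝ) * D x 0 5 6 7 := rfl
  rw [h, Int.cast_neg, Int.cast_one, neg_one_mul]

theorem F30 (x : Fin 8 → E3) : F 30 x = D x 1 2 3 4 := by
  have h : F 30 x = ((1 : ℤ) : ℝ) * D x 1 2 3 4 := rfl
  rw [h, Int.cast_one, one_mul]

theorem F31 (x : Fin 8 → E3) : F 31 x = -D x 1 2 3 5 := by
  have h : F 31 x = ((-1 : ℤ) : ℝ) * D x 1 2 3 5 := rfl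
  rw [h, Int.cast_neg, Int.cast_one, neg_one_mul]

theorem F32 (x : Fin 8 → E3) : F 32 x = D x 1 2 3 6 := by
  have h : F 32 x = ((1 : ℤ) : ℝ) * D x 1 2 3 6 := rfl
  rw [h, Int.cast_one, one_mul]

theorem F33 (x : Fin 8 → E3) : F 33 x = -D x 1 2 3 7 := by
  have h : F 33 x = ((-1 : ℤ) : ℝ) * D x 1 2 3 7 := rfl
  rw [h, Int.cast_neg, Int.cast_one, neg_one_mul]

theorem F34 (x : Fin 8 → E3) : F 34 x = -D x 1 2 4 5 := by
  have h : F 34 x = ((-1 : ℤ) : ℝ) * D x 1 2 4 5 := rfl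
  rw [h, Int.cast_neg, Int.cast_one, neg_one_mul]

theorem F35 (x : Fin 8 → E3) : F 35 x = D x 1 2 5 6 := by
  have h : F 35 x = ((1 : ℤ) : ℝ) * D x 1 2 5 6 := rfl
  rw [h, Int.cast_one, one_mul]

theorem F36 (x : Fin 8 → E3) : F 36 x = -D x 1 2 5 7 := by
  have h : F 36 x = ((-1 : ℤ) : ℝ) * D x 1 2 5 7 := rfl
  rw [h, Int.cast_neg, Int.cast_one, neg_one_mul]

theorem F37 (x : Fin 8 → E3) : F 37 x = -D x 1 2 6 7 := by
  have h : F 37 x = ((-1 : ℤ) : ℝ) * D x 1 2 6 7 := rfl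
  rw [h, Int.cast_neg, Int.cast_one, neg_one_mul]

theorem F38 (x : Fin 8 → E3) : F 38 x = D x 1 3 4 5 := by
  have h : F 38 x = ((1 : ℤ) : ℝ) * D x 1 3 4 5 := rfl
  rw [h, Int.cast_one, one_mul]

theorem F39 (x : Fin 8 → E3) : F 39 x = D x 1 3 6 7 := by
  have h : F 39 x = ((1 : ℤ) : ℝ) * D x 1 3 6 7 := rfl
  rw [h, Int.cast_one, one_mul]

theorem F40 (x : Fin 8 → E3) : F 40 x = D x 1 4 5 6 := by
  have h : F 40 x = ((1 : ℤ) : ℝ) * D x 1 4 5 6 := rfl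
  rw [h, Int.cast_one, one_mul]

theorem F41 (x : Fin 8 → E3) : F 41 x = -D x 1 4 5 7 := by
  have h : F 41 x = ((-1 : ℤ) : ℝ) * D x 1 4 5 7 := rfl
  rw [h, Int.cast_neg, Int.cast_one, neg_one_mul]

theorem F42 (x : Fin 8 → E3) : F 42 x = -D x 1 4 6 7 := by
  have h : F 42 x = ((-1 : ℤ) : ℝ) * D x 1 4 6 7 := rfl
  rw [h, Int.cast_neg, Int.cast_one, neg_one_mul]

theorem F43 (x : Fin 8 → E3) : F 43 x = D x 1 5 6 7 := by
  have h : F 43 x = ((1 : ℤ) : ℝ) * D x 1 5 6 7 := rfl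
  rw [h, Int.cast_one, one_mul]

theorem F44 (x : Fin 8 → E3) : F 44 x = -D x 2 3 4 5 := by
  have h : F 44 x = ((-1 : ℤ) : ℝ) * D x 2 3 4 5 := rfl
  rw [h, Int.cast_neg, Int.cast_one, neg_one_mul]

theorem F45 (x : Fin 8 → E3) : F 45 x = D x 2 3 4 6 := by
  have h : F 45 x = ((1 : ℤ) : ℝ) * D x 2 3 4 6 := rfl
  rw [h, Int.cast_one, one_mul]

theorem F46 (x : Fin 8 → E3) : F 46 x = -D x 2 3 4 7 := by
  have h : F 46 x = ((-1 : ℤ) : ℝ) * D x 2 3 4 7 := rfl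
  rw [h, Int.cast_neg, Int.cast_one, neg_one_mul]

theorem F47 (x : Fin 8 → E3) : F 47 x = -D x 2 3 5 6 := by
  have h : F 47 x = ((-1 : ℤ) : ℝ) * D x 2 3 5 6 := rfl
  rw [h, Int.cast_neg, Int.cast_one, neg_one_mul]

theorem F48 (x : Fin 8 → E3) : F 48 x = D x 2 3 5 7 := by
  have h : F 48 x = ((1 : ℤ) : ℝ) * D x 2 3 5 7 := rfl
  rw [h, Int.cast_one, one_mul]

theorem F49 (x : Fin 8 → E3) : F 49 x = -D x 2 3 6 7 := by
  have h : F 49 x = ((-1 : ℤ) : ℝ) * D x 2 3 6 7 := rfl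
  rw [h, Int.cast_neg, Int.cast_one, neg_one_mul]

theorem F50 (x : Fin 8 → E3) : F 50 x = -D x 2 4 5 6 := by
  have h : F 50 x = ((-1 : ℤ) : ℝ) * D x 2 4 5 6 := rfl
  rw [h, Int.cast_neg, Int.cast_one, neg_one_mul]

theorem F51 (x : Fin 8 → E3) : F 51 x = D x 2 4 5 7 := by
  have h : F 51 x = ((1 : ℤ) : ℝ) * D x 2 4 5 7 := rfl
  rw [h, Int.cast_one, one_mul]

theorem F52 (x : Fin 8 → E3) : F 52 x = D x 2 4 6 7 := by
  have h : F 52 x = ((1 : ℤ) : ℝ) * D x 2 4 6 7 := rfl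
  rw [h, Int.cast_one, one_mul]

theorem F53 (x : Fin 8 → E3) : F 53 x = -D x 2 5 6 7 := by
  have h : F 53 x = ((-1 : ℤ) : ℝ) * D x 2 5 6 7 := rfl
  rw [h, Int.cast_neg, Int.cast_one, neg_one_mul]

theorem F54 (x : Fin 8 → E3) : F 54 x = D x 3 4 5 6 := by
  have h : F 54 x = ((1 : ℤ) : ℝ) * D x 3 4 5 6 := rfl
  rw [h, Int.cast_one, one_mul]

theorem F55 (x : Fin 8 → E3) : F 55 x = -D x 3 4 5 7 := by
  have h : F 55 x = ((-1 : ℤ) : ℝ) * D x 3 4 5 7 := rfl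
  rw [h, Int.cast_neg, Int.cast_one, neg_one_mul]

theorem F56 (x : Fin 8 → E3) : F 56 x = -D x 3 4 6 7 := by
  have h : F 56 x = ((-1 : ℤ) : ℝ) * D x 3 4 6 7 := rfl
  rw [h, Int.cast_neg, Int.cast_one, neg_one_mul]

theorem F57 (x : Fin 8 → E3) : F 57 x = D x 3 5 6 7 := by
  have h : F 57 x = ((1 : ℤ) : ℝ) * D x 3 5 6 7 := rfl
  rw [h, Int.cast_one, one_mul]

theorem F58 (x : Fin 8 → E3) : F 58 x = -D x 4 5 6 7 := by
  have h : F 58 x = ((-1 : ℤ) : ℝ) * D x 4 5 6 7 := rfl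
  rw [h, Int.cast_neg, Int.cast_one, neg_one_mul]

theorem s12 (hC : CrmStmt) (x : Fin 8 → E3) (a b c d : Fin 8) : D x b a c d = -D x a b c d :=
  (hC.2.1 _ _ _ _).1

theorem s23 (hC : CrmStmt) (x : Fin 8 → E3) (a b c d : Fin 8) : D x a c b d = -D x a b c d :=
  (hC.2.1 _ _ _ _).2.1

theorem s34 (hC : CrmStmt) (x : Fin 8 → E3) (a b c d : Fin 8) : D x a b d c = -D x a b c d :=
  (hC.2.1 _ _ _ _).2.2

theorem w1 (hG : GpiStmt) (hC : CrmStmt) (x : Fin 8 → E3)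
    (hF : ∀ i < 59, i ≠ 1 → 0 < F i x) : F 1 x ≠ 0 := by
  intro h
  rw [F1] at h
  have p0 := hF 0 (by norm_num) (by norm_num)
  rw [F0] at p0
  have p9 := hF 9 (by norm_num) (by norm_num)
  rw [F9] at p9
  have p2 := hF 2 (by norm_num) (by norm_num)
  rw [F2] at p2
  have p5 := hF 5 (by norm_num) (by norm_num)
  rw [F5] at p5
  have g : D x 0 1 2 3 * D x 0 1 4 5 - D x 0 1 2 4 * D x 0 1 3 5 +
      D x 0 1 2 5 * D x 0 1 3 4 = 0 := hG _ _ _ _ _ _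
  rw [h] at g
  have m1 := mul_pos p0 p9
  have m2 := mul_pos p2 p5
  linarith

theorem w2 (hG : GpiStmt) (hC : CrmStmt) (x : Fin 8 → E3)
    (hF : ∀ i < 59, i ≠ 2 → 0 < F i x) : F 2 x ≠ 0 := by
  intro h
  rw [F2] at h
  rw [neg_eq_zero] at h
  have p0 := hF 0 (by norm_num) (by norm_num)
  rw [F0] at p0
  have p12 := hF 12 (by norm_num) (by norm_num)
  rw [F12] at p12
  have p3 := hF 3 (by norm_num) (by norm_num)
  rw [F3] at p3
  have p6 := hF 6 (by norm_num) (by norm_num)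
  rw [F6] at p6
  have g : D x 0 1 2 3 * D x 0 1 5 6 - D x 0 1 2 5 * D x 0 1 3 6 +
      D x 0 1 2 6 * D x 0 1 3 5 = 0 := hG _ _ _ _ _ _
  rw [h] at g
  have m1 := mul_pos p0 p12
  have m2 := mul_pos p3 p6
  linarith

theorem w3 (hG : GpiStmt) (hC : CrmStmt) (x : Fin 8 → E3)
    (hF : ∀ i < 59, i ≠ 3 → 0 < F i x) : F 3 x ≠ 0 := by
  intro h
  rw [F3] at h
  have p0 := hF 0 (by norm_num) (by norm_num)
  rw [F0] at p0
  have p14 := hF 14 (by norm_num) (by norm_num)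
  rw [F14] at p14
  have p4 := hF 4 (by norm_num) (by norm_num)
  rw [F4] at p4
  have p7 := hF 7 (by norm_num) (by norm_num)
  rw [F7] at p7
  have g : D x 0 1 2 3 * D x 0 1 6 7 - D x 0 1 2 6 * D x 0 1 3 7 +
      D x 0 1 2 7 * D x 0 1 3 6 = 0 := hG _ _ _ _ _ _
  rw [h] at g
  have m1 := mul_pos p0 p14
  have m2 := mul_pos p4 p7
  linarith

theorem w4 (hG : GpiStmt) (hC : CrmStmt) (x : Fin 8 → E3)
    (hF : ∀ i < 59, i ≠ 4 → 0 < F i x) : F 4 x ≠ 0 := by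
  intro h
  rw [F4] at h
  rw [neg_eq_zero] at h
  have p0 := hF 0 (by norm_num) (by norm_num)
  rw [F0] at p0
  have p22 := hF 22 (by norm_num) (by norm_num)
  rw [F22] at p22
  have p3 := hF 3 (by norm_num) (by norm_num)
  rw [F3] at p3
  have p18 := hF 18 (by norm_num) (by norm_num)
  rw [F18] at p18
  have g : D x 0 2 1 3 * D x 0 2 6 7 - D x 0 2 1 6 * D x 0 2 3 7 +
      D x 0 2 1 7 * D x 0 2 3 6 = 0 := hG _ _ _ _ _ _
  have e0 : D x 0 2 1 3 = -D x 0 1 2 3 := by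
    rw [s23 hC x 0 1 2 3]
  have e1 : D x 0 2 1 6 = -D x 0 1 2 6 := by
    rw [s23 hC x 0 1 2 6]
  have e2 : D x 0 2 1 7 = -D x 0 1 2 7 := by
    rw [s23 hC x 0 1 2 7]
  rw [e0, e1, e2] at g
  rw [h] at g
  have m1 := mul_pos p0 p22
  have m2 := mul_pos p3 p18
  linarith

theorem w6 (hG : GpiStmt) (hC : CrmStmt) (x : Fin 8 → E3)
    (hF : ∀ i < 59, i ≠ 6 → 0 < F i x) : F 6 x ≠ 0 := by
  intro h
  rw [F6] at h
  have p0 := hF 0 (by norm_num) (by norm_num)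
  rw [F0] at p0
  have p9 := hF 9 (by norm_num) (by norm_num)
  rw [F9] at p9
  have p2 := hF 2 (by norm_num) (by norm_num)
  rw [F2] at p2
  have p5 := hF 5 (by norm_num) (by norm_num)
  rw [F5] at p5
  have g : D x 0 1 2 3 * D x 0 1 4 5 - D x 0 1 2 4 * D x 0 1 3 5 +
      D x 0 1 2 5 * D x 0 1 3 4 = 0 := hG _ _ _ _ _ _
  rw [h] at g
  have m1 := mul_pos p0 p9
  have m2 := mul_pos p2 p5
  linarith

theorem w7 (hG : GpiStmt) (hC : CrmStmt) (x : Fin 8 → E3)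
    (hF : ∀ i < 59, i ≠ 7 → 0 < F i x) : F 7 x ≠ 0 := by
  intro h
  rw [F7] at h
  rw [neg_eq_zero] at h
  have p0 := hF 0 (by norm_num) (by norm_num)
  rw [F0] at p0
  have p10 := hF 10 (by norm_num) (by norm_num)
  rw [F10] at p10
  have p3 := hF 3 (by norm_num) (by norm_num)
  rw [F3] at p3
  have p5 := hF 5 (by norm_num) (by norm_num)
  rw [F5] at p5
  have g : D x 0 1 2 3 * D x 0 1 4 6 - D x 0 1 2 4 * D x 0 1 3 6 +
      D x 0 1 2 6 * D x 0 1 3 4 = 0 := hG _ _ _ _ _ _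
  rw [h] at g
  have m1 := mul_pos p0 p10
  have m2 := mul_pos p3 p5
  linarith

theorem w8 (hG : GpiStmt) (hC : CrmStmt) (x : Fin 8 → E3)
    (hF : ∀ i < 59, i ≠ 8 → 0 < F i x) : F 8 x ≠ 0 := by
  intro h
  rw [F8] at h
  have p0 := hF 0 (by norm_num) (by norm_num)
  rw [F0] at p0
  have p11 := hF 11 (by norm_num) (by norm_num)
  rw [F11] at p11
  have p4 := hF 4 (by norm_num) (by norm_num)
  rw [F4] at p4
  have p5 := hF 5 (by norm_num) (by norm_num)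
  rw [F5] at p5
  have g : D x 0 1 2 3 * D x 0 1 4 7 - D x 0 1 2 4 * D x 0 1 3 7 +
      D x 0 1 2 7 * D x 0 1 3 4 = 0 := hG _ _ _ _ _ _
  rw [h] at g
  have m1 := mul_pos p0 p11
  have m2 := mul_pos p4 p5
  linarith

theorem w10 (hG : GpiStmt) (hC : CrmStmt) (x : Fin 8 → E3)
    (hF : ∀ i < 59, i ≠ 10 → 0 < F i x) : F 10 x ≠ 0 := by
  intro h
  rw [F10] at h
  have p1 := hF 1 (by norm_num) (by norm_num)
  rw [F1] at p1
  have p12 := hF 12 (by norm_num) (by norm_num)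
  rw [F12] at p12
  have p3 := hF 3 (by norm_num) (by norm_num)
  rw [F3] at p3
  have p9 := hF 9 (by norm_num) (by norm_num)
  rw [F9] at p9
  have g : D x 0 1 2 4 * D x 0 1 5 6 - D x 0 1 2 5 * D x 0 1 4 6 +
      D x 0 1 2 6 * D x 0 1 4 5 = 0 := hG _ _ _ _ _ _
  rw [h] at g
  have m1 := mul_pos p1 p12
  have m2 := mul_pos p3 p9
  linarith

theorem w11 (hG : GpiStmt) (hC : CrmStmt) (x : Fin 8 → E3)
    (hF : ∀ i < 59, i ≠ 11 → 0 < F i x) : F 11 x ≠ 0 := by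
  intro h
  rw [F11] at h
  rw [neg_eq_zero] at h
  have p1 := hF 1 (by norm_num) (by norm_num)
  rw [F1] at p1
  have p13 := hF 13 (by norm_num) (by norm_num)
  rw [F13] at p13
  have p4 := hF 4 (by norm_num) (by norm_num)
  rw [F4] at p4
  have p9 := hF 9 (by norm_num) (by norm_num)
  rw [F9] at p9
  have g : D x 0 1 2 4 * D x 0 1 5 7 - D x 0 1 2 5 * D x 0 1 4 7 +
      D x 0 1 2 7 * D x 0 1 4 5 = 0 := hG _ _ _ _ _ _
  rw [h] at g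
  have m1 := mul_pos p1 p13
  have m2 := mul_pos p4 p9
  linarith

theorem w13 (hG : GpiStmt) (hC : CrmStmt) (x : Fin 8 → E3)
    (hF : ∀ i < 59, i ≠ 13 → 0 < F i x) : F 13 x ≠ 0 := by
  intro h
  rw [F13] at h
  have p2 := hF 2 (by norm_num) (by norm_num)
  rw [F2] at p2
  have p14 := hF 14 (by norm_num) (by norm_num)
  rw [F14] at p14
  have p4 := hF 4 (by norm_num) (by norm_num)
  rw [F4] at p4
  have p12 := hF 12 (by norm_num) (by norm_num)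
  rw [F12] at p12
  have g : D x 0 1 2 5 * D x 0 1 6 7 - D x 0 1 2 6 * D x 0 1 5 7 +
      D x 0 1 2 7 * D x 0 1 5 6 = 0 := hG _ _ _ _ _ _
  rw [h] at g
  have m1 := mul_pos p2 p14
  have m2 := mul_pos p4 p12
  linarith

theorem w15 (hG : GpiStmt) (hC : CrmStmt) (x : Fin 8 → E3)
    (hF : ∀ i < 59, i ≠ 15 → 0 < F i x) : F 15 x ≠ 0 := by
  intro h
  rw [F15] at h
  rw [neg_eq_zero] at h
  have p0 := hF 0 (by norm_num) (by norm_num)
  rw [F0] at p0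
  have p19 := hF 19 (by norm_num) (by norm_num)
  rw [F19] at p19
  have p1 := hF 1 (by norm_num) (by norm_num)
  rw [F1] at p1
  have p16 := hF 16 (by norm_num) (by norm_num)
  rw [F16] at p16
  have g : D x 0 2 1 3 * D x 0 2 4 5 - D x 0 2 1 4 * D x 0 2 3 5 +
      D x 0 2 1 5 * D x 0 2 3 4 = 0 := hG _ _ _ _ _ _
  have e0 : D x 0 2 1 3 = -D x 0 1 2 3 := by
    rw [s23 hC x 0 1 2 3]
  have e1 : D x 0 2 1 4 = -D x 0 1 2 4 := by
    rw [s23 hC x 0 1 2 4]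
  have e2 : D x 0 2 1 5 = -D x 0 1 2 5 := by
    rw [s23 hC x 0 1 2 5]
  rw [e0, e1, e2] at g
  rw [h] at g
  have m1 := mul_pos p0 p19
  have m2 := mul_pos p1 p16
  linarith

theorem w16 (hG : GpiStmt) (hC : CrmStmt) (x : Fin 8 → E3)
    (hF : ∀ i < 59, i ≠ 16 → 0 < F i x) : F 16 x ≠ 0 := by
  intro h
  rw [F16] at h
  have p0 := hF 0 (by norm_num) (by norm_num)
  rw [F0] at p0
  have p47 := hF 47 (by norm_num) (by norm_num)
  rw [F47] at p47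
  have p17 := hF 17 (by norm_num) (by norm_num)
  rw [F17] at p17
  have p31 := hF 31 (by norm_num) (by norm_num)
  rw [F31] at p31
  have g : D x 2 3 0 1 * D x 2 3 5 6 - D x 2 3 0 5 * D x 2 3 1 6 +
      D x 2 3 0 6 * D x 2 3 1 5 = 0 := hG _ _ _ _ _ _
  have e0 : D x 2 3 0 1 = D x 0 1 2 3 := by
    rw [s23 hC x 2 0 3 1, s34 hC x 2 0 1 3, s12 hC x 0 2 1 3, s23 hC x 0 1 2 3]; ring
  have e1 : D x 2 3 0 5 = D x 0 2 3 5 := by
    rw [s23 hC x 2 0 3 5, s12 hC x 0 2 3 5]; ring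
  have e2 : D x 2 3 1 6 = D x 1 2 3 6 := by
    rw [s23 hC x 2 1 3 6, s12 hC x 1 2 3 6]; ring
  have e3 : D x 2 3 0 6 = D x 0 2 3 6 := by
    rw [s23 hC x 2 0 3 6, s12 hC x 0 2 3 6]; ring
  have e4 : D x 2 3 1 5 = D x 1 2 3 5 := by
    rw [s23 hC x 2 1 3 5, s12 hC x 1 2 3 5]; ring
  rw [e0, e1, e2, e3, e4] at g
  rw [h] at g
  have m1 := mul_pos p0 p47
  have m2 := mul_pos p17 p31
  linarith

theorem w17 (hG : GpiStmt) (hC : CrmStmt) (x : Fin 8 → E3)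
    (hF : ∀ i < 59, i ≠ 17 → 0 < F i x) : F 17 x ≠ 0 := by
  intro h
  rw [F17] at h
  rw [neg_eq_zero] at h
  have p0 := hF 0 (by norm_num) (by norm_num)
  rw [F0] at p0
  have p20 := hF 20 (by norm_num) (by norm_num)
  rw [F20] at p20
  have p3 := hF 3 (by norm_num) (by norm_num)
  rw [F3] at p3
  have p16 := hF 16 (by norm_num) (by norm_num)
  rw [F16] at p16
  have g : D x 0 2 1 3 * D x 0 2 5 6 - D x 0 2 1 5 * D x 0 2 3 6 +
      D x 0 2 1 6 * D x 0 2 3 5 = 0 := hG _ _ _ _ _ _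
  have e0 : D x 0 2 1 3 = -D x 0 1 2 3 := by
    rw [s23 hC x 0 1 2 3]
  have e1 : D x 0 2 1 5 = -D x 0 1 2 5 := by
    rw [s23 hC x 0 1 2 5]
  have e2 : D x 0 2 1 6 = -D x 0 1 2 6 := by
    rw [s23 hC x 0 1 2 6]
  rw [e0, e1, e2] at g
  rw [h] at g
  have m1 := mul_pos p0 p20
  have m2 := mul_pos p3 p16
  linarith

theorem w18 (hG : GpiStmt) (hC : CrmStmt) (x : Fin 8 → E3)
    (hF : ∀ i < 59, i ≠ 18 → 0 < F i x) : F 18 x ≠ 0 := by
  intro h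
  rw [F18] at h
  have p0 := hF 0 (by norm_num) (by norm_num)
  rw [F0] at p0
  have p21 := hF 21 (by norm_num) (by norm_num)
  rw [F21] at p21
  have p4 := hF 4 (by norm_num) (by norm_num)
  rw [F4] at p4
  have p16 := hF 16 (by norm_num) (by norm_num)
  rw [F16] at p16
  have g : D x 0 2 1 3 * D x 0 2 5 7 - D x 0 2 1 5 * D x 0 2 3 7 +
      D x 0 2 1 7 * D x 0 2 3 5 = 0 := hG _ _ _ _ _ _
  have e0 : D x 0 2 1 3 = -D x 0 1 2 3 := by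
    rw [s23 hC x 0 1 2 3]
  have e1 : D x 0 2 1 5 = -D x 0 1 2 5 := by
    rw [s23 hC x 0 1 2 5]
  have e2 : D x 0 2 1 7 = -D x 0 1 2 7 := by
    rw [s23 hC x 0 1 2 7]
  rw [e0, e1, e2] at g
  rw [h] at g
  have m1 := mul_pos p0 p21
  have m2 := mul_pos p4 p16
  linarith

theorem w19 (hG : GpiStmt) (hC : CrmStmt) (x : Fin 8 → E3)
    (hF : ∀ i < 59, i ≠ 19 → 0 < F i x) : F 19 x ≠ 0 := by
  intro h
  rw [F19] at h
  have p1 := hF 1 (by norm_num) (by norm_num)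
  rw [F1] at p1
  have p44 := hF 44 (by norm_num) (by norm_num)
  rw [F44] at p44
  have p15 := hF 15 (by norm_num) (by norm_num)
  rw [F15] at p15
  have p34 := hF 34 (by norm_num) (by norm_num)
  rw [F34] at p34
  have g : D x 2 4 0 1 * D x 2 4 3 5 - D x 2 4 0 3 * D x 2 4 1 5 +
      D x 2 4 0 5 * D x 2 4 1 3 = 0 := hG _ _ _ _ _ _
  have e0 : D x 2 4 0 1 = D x 0 1 2 4 := by
    rw [s23 hC x 2 0 4 1, s34 hC x 2 0 1 4, s12 hC x 0 2 1 4, s23 hC x 0 1 2 4]; ring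
  have e1 : D x 2 4 3 5 = -D x 2 3 4 5 := by
    rw [s23 hC x 2 3 4 5]
  have e2 : D x 2 4 0 3 = -D x 0 2 3 4 := by
    rw [s23 hC x 2 0 4 3, s34 hC x 2 0 3 4, s12 hC x 0 2 3 4]; ring
  have e3 : D x 2 4 1 5 = D x 1 2 4 5 := by
    rw [s23 hC x 2 1 4 5, s12 hC x 1 2 4 5]; ring
  have e4 : D x 2 4 0 5 = D x 0 2 4 5 := by
    rw [s23 hC x 2 0 4 5, s12 hC x 0 2 4 5]; ring
  have e5 : D x 2 4 1 3 = -D x 1 2 3 4 := by
    rw [s23 hC x 2 1 4 3, s34 hC x 2 1 3 4, s12 hC x 1 2 3 4]; ring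
  rw [e0, e1, e2, e3, e4, e5] at g
  rw [h] at g
  have m1 := mul_pos p1 p44
  have m2 := mul_pos p15 p34
  linarith

theorem w20 (hG : GpiStmt) (hC : CrmStmt) (x : Fin 8 → E3)
    (hF : ∀ i < 59, i ≠ 20 → 0 < F i x) : F 20 x ≠ 0 := by
  intro h
  rw [F20] at h
  rw [neg_eq_zero] at h
  have p2 := hF 2 (by norm_num) (by norm_num)
  rw [F2] at p2
  have p22 := hF 22 (by norm_num) (by norm_num)
  rw [F22] at p22
  have p3 := hF 3 (by norm_num) (by norm_num)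
  rw [F3] at p3
  have p21 := hF 21 (by norm_num) (by norm_num)
  rw [F21] at p21
  have g : D x 0 2 1 5 * D x 0 2 6 7 - D x 0 2 1 6 * D x 0 2 5 7 +
      D x 0 2 1 7 * D x 0 2 5 6 = 0 := hG _ _ _ _ _ _
  have e0 : D x 0 2 1 5 = -D x 0 1 2 5 := by
    rw [s23 hC x 0 1 2 5]
  have e1 : D x 0 2 1 6 = -D x 0 1 2 6 := by
    rw [s23 hC x 0 1 2 6]
  have e2 : D x 0 2 1 7 = -D x 0 1 2 7 := by
    rw [s23 hC x 0 1 2 7]
  rw [e0, e1, e2] at g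
  rw [h] at g
  have m1 := mul_pos p2 p22
  have m2 := mul_pos p3 p21
  linarith

theorem w22 (hG : GpiStmt) (hC : CrmStmt) (x : Fin 8 → E3)
    (hF : ∀ i < 59, i ≠ 22 → 0 < F i x) : F 22 x ≠ 0 := by
  intro h
  rw [F22] at h
  have p3 := hF 3 (by norm_num) (by norm_num)
  rw [F3] at p3
  have p49 := hF 49 (by norm_num) (by norm_num)
  rw [F49] at p49
  have p17 := hF 17 (by norm_num) (by norm_num)
  rw [F17] at p17
  have p37 := hF 37 (by norm_num) (by norm_num)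
  rw [F37] at p37
  have g : D x 2 6 0 1 * D x 2 6 3 7 - D x 2 6 0 3 * D x 2 6 1 7 +
      D x 2 6 0 7 * D x 2 6 1 3 = 0 := hG _ _ _ _ _ _
  have e0 : D x 2 6 0 1 = D x 0 1 2 6 := by
    rw [s23 hC x 2 0 6 1, s34 hC x 2 0 1 6, s12 hC x 0 2 1 6, s23 hC x 0 1 2 6]; ring
  have e1 : D x 2 6 3 7 = -D x 2 3 6 7 := by
    rw [s23 hC x 2 3 6 7]
  have e2 : D x 2 6 0 3 = -D x 0 2 3 6 := by
    rw [s23 hC x 2 0 6 3, s34 hC x 2 0 3 6, s12 hC x 0 2 3 6]; ring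
  have e3 : D x 2 6 1 7 = D x 1 2 6 7 := by
    rw [s23 hC x 2 1 6 7, s12 hC x 1 2 6 7]; ring
  have e4 : D x 2 6 0 7 = D x 0 2 6 7 := by
    rw [s23 hC x 2 0 6 7, s12 hC x 0 2 6 7]; ring
  have e5 : D x 2 6 1 3 = -D x 1 2 3 6 := by
    rw [s23 hC x 2 1 6 3, s34 hC x 2 1 3 6, s12 hC x 1 2 3 6]; ring
  rw [e0, e1, e2, e3, e4, e5] at g
  rw [h] at g
  have m1 := mul_pos p3 p49
  have m2 := mul_pos p17 p37
  linarith

theorem w23 (hG : GpiStmt) (hC : CrmStmt) (x : Fin 8 → E3)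
    (hF : ∀ i < 59, i ≠ 23 → 0 < F i x) : F 23 x ≠ 0 := by
  intro h
  rw [F23] at h
  rw [neg_eq_zero] at h
  have p5 := hF 5 (by norm_num) (by norm_num)
  rw [F5] at p5
  have p19 := hF 19 (by norm_num) (by norm_num)
  rw [F19] at p19
  have p9 := hF 9 (by norm_num) (by norm_num)
  rw [F9] at p9
  have p15 := hF 15 (by norm_num) (by norm_num)
  rw [F15] at p15
  have g : D x 0 4 1 2 * D x 0 4 3 5 - D x 0 4 1 3 * D x 0 4 2 5 +
      D x 0 4 1 5 * D x 0 4 2 3 = 0 := hG _ _ _ _ _ _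
  have e0 : D x 0 4 1 2 = D x 0 1 2 4 := by
    rw [s23 hC x 0 1 4 2, s34 hC x 0 1 2 4]; ring
  have e1 : D x 0 4 3 5 = -D x 0 3 4 5 := by
    rw [s23 hC x 0 3 4 5]
  have e2 : D x 0 4 1 3 = D x 0 1 3 4 := by
    rw [s23 hC x 0 1 4 3, s34 hC x 0 1 3 4]; ring
  have e3 : D x 0 4 2 5 = -D x 0 2 4 5 := by
    rw [s23 hC x 0 2 4 5]
  have e4 : D x 0 4 1 5 = -D x 0 1 4 5 := by
    rw [s23 hC x 0 1 4 5]
  have e5 : D x 0 4 2 3 = D x 0 2 3 4 := by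
    rw [s23 hC x 0 2 4 3, s34 hC x 0 2 3 4]; ring
  rw [e0, e1, e2, e3, e4, e5] at g
  rw [h] at g
  have m1 := mul_pos p5 p19
  have m2 := mul_pos p9 p15
  linarith

theorem w25 (hG : GpiStmt) (hC : CrmStmt) (x : Fin 8 → E3)
    (hF : ∀ i < 59, i ≠ 25 → 0 < F i x) : F 25 x ≠ 0 := by
  intro h
  rw [F25] at h
  rw [neg_eq_zero] at h
  have p7 := hF 7 (by norm_num) (by norm_num)
  rw [F7] at p7
  have p22 := hF 22 (by norm_num) (by norm_num)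
  rw [F22] at p22
  have p14 := hF 14 (by norm_num) (by norm_num)
  rw [F14] at p14
  have p17 := hF 17 (by norm_num) (by norm_num)
  rw [F17] at p17
  have g : D x 0 6 1 2 * D x 0 6 3 7 - D x 0 6 1 3 * D x 0 6 2 7 +
      D x 0 6 1 7 * D x 0 6 2 3 = 0 := hG _ _ _ _ _ _
  have e0 : D x 0 6 1 2 = D x 0 1 2 6 := by
    rw [s23 hC x 0 1 6 2, s34 hC x 0 1 2 6]; ring
  have e1 : D x 0 6 3 7 = -D x 0 3 6 7 := by
    rw [s23 hC x 0 3 6 7]
  have e2 : D x 0 6 1 3 = D x 0 1 3 6 := by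
    rw [s23 hC x 0 1 6 3, s34 hC x 0 1 3 6]; ring
  have e3 : D x 0 6 2 7 = -D x 0 2 6 7 := by
    rw [s23 hC x 0 2 6 7]
  have e4 : D x 0 6 1 7 = -D x 0 1 6 7 := by
    rw [s23 hC x 0 1 6 7]
  have e5 : D x 0 6 2 3 = D x 0 2 3 6 := by
    rw [s23 hC x 0 2 6 3, s34 hC x 0 2 3 6]; ring
  rw [e0, e1, e2, e3, e4, e5] at g
  rw [h] at g
  have m1 := mul_pos p7 p22
  have m2 := mul_pos p14 p17
  linarith

theorem w26 (hG : GpiStmt) (hC : CrmStmt) (x : Fin 8 → E3)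
    (hF : ∀ i < 59, i ≠ 26 → 0 < F i x) : F 26 x ≠ 0 := by
  intro h
  rw [F26] at h
  rw [neg_eq_zero] at h
  have p9 := hF 9 (by norm_num) (by norm_num)
  rw [F9] at p9
  have p28 := hF 28 (by norm_num) (by norm_num)
  rw [F28] at p28
  have p10 := hF 10 (by norm_num) (by norm_num)
  rw [F10] at p10
  have p27 := hF 27 (by norm_num) (by norm_num)
  rw [F27] at p27
  have g : D x 0 4 1 5 * D x 0 4 6 7 - D x 0 4 1 6 * D x 0 4 5 7 +
      D x 0 4 1 7 * D x 0 4 5 6 = 0 := hG _ _ _ _ _ _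
  have e0 : D x 0 4 1 5 = -D x 0 1 4 5 := by
    rw [s23 hC x 0 1 4 5]
  have e1 : D x 0 4 1 6 = -D x 0 1 4 6 := by
    rw [s23 hC x 0 1 4 6]
  have e2 : D x 0 4 1 7 = -D x 0 1 4 7 := by
    rw [s23 hC x 0 1 4 7]
  rw [e0, e1, e2] at g
  rw [h] at g
  have m1 := mul_pos p9 p28
  have m2 := mul_pos p10 p27
  linarith

theorem w27 (hG : GpiStmt) (hC : CrmStmt) (x : Fin 8 → E3)
    (hF : ∀ i < 59, i ≠ 27 → 0 < F i x) : F 27 x ≠ 0 := by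
  intro h
  rw [F27] at h
  have p9 := hF 9 (by norm_num) (by norm_num)
  rw [F9] at p9
  have p21 := hF 21 (by norm_num) (by norm_num)
  rw [F21] at p21
  have p13 := hF 13 (by norm_num) (by norm_num)
  rw [F13] at p13
  have p19 := hF 19 (by norm_num) (by norm_num)
  rw [F19] at p19
  have g : D x 0 5 1 2 * D x 0 5 4 7 - D x 0 5 1 4 * D x 0 5 2 7 +
      D x 0 5 1 7 * D x 0 5 2 4 = 0 := hG _ _ _ _ _ _
  have e0 : D x 0 5 1 2 = D x 0 1 2 5 := by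
    rw [s23 hC x 0 1 5 2, s34 hC x 0 1 2 5]; ring
  have e1 : D x 0 5 4 7 = -D x 0 4 5 7 := by
    rw [s23 hC x 0 4 5 7]
  have e2 : D x 0 5 1 4 = D x 0 1 4 5 := by
    rw [s23 hC x 0 1 5 4, s34 hC x 0 1 4 5]; ring
  have e3 : D x 0 5 2 7 = -D x 0 2 5 7 := by
    rw [s23 hC x 0 2 5 7]
  have e4 : D x 0 5 1 7 = -D x 0 1 5 7 := by
    rw [s23 hC x 0 1 5 7]
  have e5 : D x 0 5 2 4 = D x 0 2 4 5 := by
    rw [s23 hC x 0 2 5 4, s34 hC x 0 2 4 5]; ring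
  rw [e0, e1, e2, e3, e4, e5] at g
  rw [h] at g
  have m1 := mul_pos p9 p21
  have m2 := mul_pos p13 p19
  linarith

theorem w28 (hG : GpiStmt) (hC : CrmStmt) (x : Fin 8 → E3)
    (hF : ∀ i < 59, i ≠ 28 → 0 < F i x) : F 28 x ≠ 0 := by
  intro h
  rw [F28] at h
  have p10 := hF 10 (by norm_num) (by norm_num)
  rw [F10] at p10
  have p58 := hF 58 (by norm_num) (by norm_num)
  rw [F58] at p58
  have p26 := hF 26 (by norm_num) (by norm_num)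
  rw [F26] at p26
  have p42 := hF 42 (by norm_num) (by norm_num)
  rw [F42] at p42
  have g : D x 4 6 0 1 * D x 4 6 5 7 - D x 4 6 0 5 * D x 4 6 1 7 +
      D x 4 6 0 7 * D x 4 6 1 5 = 0 := hG _ _ _ _ _ _
  have e0 : D x 4 6 0 1 = D x 0 1 4 6 := by
    rw [s23 hC x 4 0 6 1, s34 hC x 4 0 1 6, s12 hC x 0 4 1 6, s23 hC x 0 1 4 6]; ring
  have e1 : D x 4 6 5 7 = -D x 4 5 6 7 := by
    rw [s23 hC x 4 5 6 7]
  have e2 : D x 4 6 0 5 = -D x 0 4 5 6 := by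
    rw [s23 hC x 4 0 6 5, s34 hC x 4 0 5 6, s12 hC x 0 4 5 6]; ring
  have e3 : D x 4 6 1 7 = D x 1 4 6 7 := by
    rw [s23 hC x 4 1 6 7, s12 hC x 1 4 6 7]; ring
  have e4 : D x 4 6 0 7 = D x 0 4 6 7 := by
    rw [s23 hC x 4 0 6 7, s12 hC x 0 4 6 7]; ring
  have e5 : D x 4 6 1 5 = -D x 1 4 5 6 := by
    rw [s23 hC x 4 1 6 5, s34 hC x 4 1 5 6, s12 hC x 1 4 5 6]; ring
  rw [e0, e1, e2, e3, e4, e5] at g
  rw [h] at g
  have m1 := mul_pos p10 p58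
  have m2 := mul_pos p26 p42
  linarith

theorem w29 (hG : GpiStmt) (hC : CrmStmt) (x : Fin 8 → E3)
    (hF : ∀ i < 59, i ≠ 29 → 0 < F i x) : F 29 x ≠ 0 := by
  intro h
  rw [F29] at h
  rw [neg_eq_zero] at h
  have p12 := hF 12 (by norm_num) (by norm_num)
  rw [F12] at p12
  have p22 := hF 22 (by norm_num) (by norm_num)
  rw [F22] at p22
  have p14 := hF 14 (by norm_num) (by norm_num)
  rw [F14] at p14
  have p20 := hF 20 (by norm_num) (by norm_num)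
  rw [F20] at p20
  have g : D x 0 6 1 2 * D x 0 6 5 7 - D x 0 6 1 5 * D x 0 6 2 7 +
      D x 0 6 1 7 * D x 0 6 2 5 = 0 := hG _ _ _ _ _ _
  have e0 : D x 0 6 1 2 = D x 0 1 2 6 := by
    rw [s23 hC x 0 1 6 2, s34 hC x 0 1 2 6]; ring
  have e1 : D x 0 6 5 7 = -D x 0 5 6 7 := by
    rw [s23 hC x 0 5 6 7]
  have e2 : D x 0 6 1 5 = D x 0 1 5 6 := by
    rw [s23 hC x 0 1 6 5, s34 hC x 0 1 5 6]; ring
  have e3 : D x 0 6 2 7 = -D x 0 2 6 7 := by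
    rw [s23 hC x 0 2 6 7]
  have e4 : D x 0 6 1 7 = -D x 0 1 6 7 := by
    rw [s23 hC x 0 1 6 7]
  have e5 : D x 0 6 2 5 = D x 0 2 5 6 := by
    rw [s23 hC x 0 2 6 5, s34 hC x 0 2 5 6]; ring
  rw [e0, e1, e2, e3, e4, e5] at g
  rw [h] at g
  have m1 := mul_pos p12 p22
  have m2 := mul_pos p14 p20
  linarith

theorem w30 (hG : GpiStmt) (hC : CrmStmt) (x : Fin 8 → E3)
    (hF : ∀ i < 59, i ≠ 30 → 0 < F i x) : F 30 x ≠ 0 := by
  intro h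
  rw [F30] at h
  have p0 := hF 0 (by norm_num) (by norm_num)
  rw [F0] at p0
  have p34 := hF 34 (by norm_num) (by norm_num)
  rw [F34] at p34
  have p1 := hF 1 (by norm_num) (by norm_num)
  rw [F1] at p1
  have p31 := hF 31 (by norm_num) (by norm_num)
  rw [F31] at p31
  have g : D x 1 2 0 3 * D x 1 2 4 5 - D x 1 2 0 4 * D x 1 2 3 5 +
      D x 1 2 0 5 * D x 1 2 3 4 = 0 := hG _ _ _ _ _ _
  have e0 : D x 1 2 0 3 = D x 0 1 2 3 := by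
    rw [s23 hC x 1 0 2 3, s12 hC x 0 1 2 3]; ring
  have e1 : D x 1 2 0 4 = D x 0 1 2 4 := by
    rw [s23 hC x 1 0 2 4, s12 hC x 0 1 2 4]; ring
  have e2 : D x 1 2 0 5 = D x 0 1 2 5 := by
    rw [s23 hC x 1 0 2 5, s12 hC x 0 1 2 5]; ring
  rw [e0, e1, e2] at g
  rw [h] at g
  have m1 := mul_pos p0 p34
  have m2 := mul_pos p1 p31
  linarith

theorem w31 (hG : GpiStmt) (hC : CrmStmt) (x : Fin 8 → E3)
    (hF : ∀ i < 59, i ≠ 31 → 0 < F i x) : F 31 x ≠ 0 := by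
  intro h
  rw [F31] at h
  rw [neg_eq_zero] at h
  have p0 := hF 0 (by norm_num) (by norm_num)
  rw [F0] at p0
  have p44 := hF 44 (by norm_num) (by norm_num)
  rw [F44] at p44
  have p16 := hF 16 (by norm_num) (by norm_num)
  rw [F16] at p16
  have p30 := hF 30 (by norm_num) (by norm_num)
  rw [F30] at p30
  have g : D x 2 3 0 1 * D x 2 3 4 5 - D x 2 3 0 4 * D x 2 3 1 5 +
      D x 2 3 0 5 * D x 2 3 1 4 = 0 := hG _ _ _ _ _ _
  have e0 : D x 2 3 0 1 = D x 0 1 2 3 := by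
    rw [s23 hC x 2 0 3 1, s34 hC x 2 0 1 3, s12 hC x 0 2 1 3, s23 hC x 0 1 2 3]; ring
  have e1 : D x 2 3 0 4 = D x 0 2 3 4 := by
    rw [s23 hC x 2 0 3 4, s12 hC x 0 2 3 4]; ring
  have e2 : D x 2 3 1 5 = D x 1 2 3 5 := by
    rw [s23 hC x 2 1 3 5, s12 hC x 1 2 3 5]; ring
  have e3 : D x 2 3 0 5 = D x 0 2 3 5 := by
    rw [s23 hC x 2 0 3 5, s12 hC x 0 2 3 5]; ring
  have e4 : D x 2 3 1 4 = D x 1 2 3 4 := by
    rw [s23 hC x 2 1 3 4, s12 hC x 1 2 3 4]; ring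
  rw [e0, e1, e2, e3, e4] at g
  rw [h] at g
  have m1 := mul_pos p0 p44
  have m2 := mul_pos p16 p30
  linarith

theorem w32 (hG : GpiStmt) (hC : CrmStmt) (x : Fin 8 → E3)
    (hF : ∀ i < 59, i ≠ 32 → 0 < F i x) : F 32 x ≠ 0 := by
  intro h
  rw [F32] at h
  have p0 := hF 0 (by norm_num) (by norm_num)
  rw [F0] at p0
  have p35 := hF 35 (by norm_num) (by norm_num)
  rw [F35] at p35
  have p3 := hF 3 (by norm_num) (by norm_num)
  rw [F3] at p3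
  have p31 := hF 31 (by norm_num) (by norm_num)
  rw [F31] at p31
  have g : D x 1 2 0 3 * D x 1 2 5 6 - D x 1 2 0 5 * D x 1 2 3 6 +
      D x 1 2 0 6 * D x 1 2 3 5 = 0 := hG _ _ _ _ _ _
  have e0 : D x 1 2 0 3 = D x 0 1 2 3 := by
    rw [s23 hC x 1 0 2 3, s12 hC x 0 1 2 3]; ring
  have e1 : D x 1 2 0 5 = D x 0 1 2 5 := by
    rw [s23 hC x 1 0 2 5, s12 hC x 0 1 2 5]; ring
  have e2 : D x 1 2 0 6 = D x 0 1 2 6 := by
    rw [s23 hC x 1 0 2 6, s12 hC x 0 1 2 6]; ring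
  rw [e0, e1, e2] at g
  rw [h] at g
  have m1 := mul_pos p0 p35
  have m2 := mul_pos p3 p31
  linarith

theorem w33 (hG : GpiStmt) (hC : CrmStmt) (x : Fin 8 → E3)
    (hF : ∀ i < 59, i ≠ 33 → 0 < F i x) : F 33 x ≠ 0 := by
  intro h
  rw [F33] at h
  rw [neg_eq_zero] at h
  have p0 := hF 0 (by norm_num) (by norm_num)
  rw [F0] at p0
  have p36 := hF 36 (by norm_num) (by norm_num)
  rw [F36] at p36
  have p4 := hF 4 (by norm_num) (by norm_num)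
  rw [F4] at p4
  have p31 := hF 31 (by norm_num) (by norm_num)
  rw [F31] at p31
  have g : D x 1 2 0 3 * D x 1 2 5 7 - D x 1 2 0 5 * D x 1 2 3 7 +
      D x 1 2 0 7 * D x 1 2 3 5 = 0 := hG _ _ _ _ _ _
  have e0 : D x 1 2 0 3 = D x 0 1 2 3 := by
    rw [s23 hC x 1 0 2 3, s12 hC x 0 1 2 3]; ring
  have e1 : D x 1 2 0 5 = D x 0 1 2 5 := by
    rw [s23 hC x 1 0 2 5, s12 hC x 0 1 2 5]; ring
  have e2 : D x 1 2 0 7 = D x 0 1 2 7 := by
    rw [s23 hC x 1 0 2 7, s12 hC x 0 1 2 7]; ring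
  rw [e0, e1, e2] at g
  rw [h] at g
  have m1 := mul_pos p0 p36
  have m2 := mul_pos p4 p31
  linarith

theorem w35 (hG : GpiStmt) (hC : CrmStmt) (x : Fin 8 → E3)
    (hF : ∀ i < 59, i ≠ 35 → 0 < F i x) : F 35 x ≠ 0 := by
  intro h
  rw [F35] at h
  have p2 := hF 2 (by norm_num) (by norm_num)
  rw [F2] at p2
  have p37 := hF 37 (by norm_num) (by norm_num)
  rw [F37] at p37
  have p3 := hF 3 (by norm_num) (by norm_num)
  rw [F3] at p3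
  have p36 := hF 36 (by norm_num) (by norm_num)
  rw [F36] at p36
  have g : D x 1 2 0 5 * D x 1 2 6 7 - D x 1 2 0 6 * D x 1 2 5 7 +
      D x 1 2 0 7 * D x 1 2 5 6 = 0 := hG _ _ _ _ _ _
  have e0 : D x 1 2 0 5 = D x 0 1 2 5 := by
    rw [s23 hC x 1 0 2 5, s12 hC x 0 1 2 5]; ring
  have e1 : D x 1 2 0 6 = D x 0 1 2 6 := by
    rw [s23 hC x 1 0 2 6, s12 hC x 0 1 2 6]; ring
  have e2 : D x 1 2 0 7 = D x 0 1 2 7 := by
    rw [s23 hC x 1 0 2 7, s12 hC x 0 1 2 7]; ring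
  rw [e0, e1, e2] at g
  rw [h] at g
  have m1 := mul_pos p2 p37
  have m2 := mul_pos p3 p36
  linarith

theorem w36 (hG : GpiStmt) (hC : CrmStmt) (x : Fin 8 → E3)
    (hF : ∀ i < 59, i ≠ 36 → 0 < F i x) : F 36 x ≠ 0 := by
  intro h
  rw [F36] at h
  rw [neg_eq_zero] at h
  have p2 := hF 2 (by norm_num) (by norm_num)
  rw [F2] at p2
  have p48 := hF 48 (by norm_num) (by norm_num)
  rw [F48] at p48
  have p21 := hF 21 (by norm_num) (by norm_num)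
  rw [F21] at p21
  have p31 := hF 31 (by norm_num) (by norm_num)
  rw [F31] at p31
  have g : D x 2 5 0 1 * D x 2 5 3 7 - D x 2 5 0 3 * D x 2 5 1 7 +
      D x 2 5 0 7 * D x 2 5 1 3 = 0 := hG _ _ _ _ _ _
  have e0 : D x 2 5 0 1 = D x 0 1 2 5 := by
    rw [s23 hC x 2 0 5 1, s34 hC x 2 0 1 5, s12 hC x 0 2 1 5, s23 hC x 0 1 2 5]; ring
  have e1 : D x 2 5 3 7 = -D x 2 3 5 7 := by
    rw [s23 hC x 2 3 5 7]
  have e2 : D x 2 5 0 3 = -D x 0 2 3 5 := by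
    rw [s23 hC x 2 0 5 3, s34 hC x 2 0 3 5, s12 hC x 0 2 3 5]; ring
  have e3 : D x 2 5 1 7 = D x 1 2 5 7 := by
    rw [s23 hC x 2 1 5 7, s12 hC x 1 2 5 7]; ring
  have e4 : D x 2 5 0 7 = D x 0 2 5 7 := by
    rw [s23 hC x 2 0 5 7, s12 hC x 0 2 5 7]; ring
  have e5 : D x 2 5 1 3 = -D x 1 2 3 5 := by
    rw [s23 hC x 2 1 5 3, s34 hC x 2 1 3 5, s12 hC x 1 2 3 5]; ring
  rw [e0, e1, e2, e3, e4, e5] at g
  rw [h] at g
  have m1 := mul_pos p2 p48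
  have m2 := mul_pos p21 p31
  linarith

theorem w38 (hG : GpiStmt) (hC : CrmStmt) (x : Fin 8 → E3)
    (hF : ∀ i < 59, i ≠ 38 → 0 < F i x) : F 38 x ≠ 0 := by
  intro h
  rw [F38] at h
  have p5 := hF 5 (by norm_num) (by norm_num)
  rw [F5] at p5
  have p34 := hF 34 (by norm_num) (by norm_num)
  rw [F34] at p34
  have p9 := hF 9 (by norm_num) (by norm_num)
  rw [F9] at p9
  have p30 := hF 30 (by norm_num) (by norm_num)
  rw [F30] at p30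
  have g : D x 1 4 0 2 * D x 1 4 3 5 - D x 1 4 0 3 * D x 1 4 2 5 +
      D x 1 4 0 5 * D x 1 4 2 3 = 0 := hG _ _ _ _ _ _
  have e0 : D x 1 4 0 2 = -D x 0 1 2 4 := by
    rw [s23 hC x 1 0 4 2, s34 hC x 1 0 2 4, s12 hC x 0 1 2 4]; ring
  have e1 : D x 1 4 3 5 = -D x 1 3 4 5 := by
    rw [s23 hC x 1 3 4 5]
  have e2 : D x 1 4 0 3 = -D x 0 1 3 4 := by
    rw [s23 hC x 1 0 4 3, s34 hC x 1 0 3 4, s12 hC x 0 1 3 4]; ring
  have e3 : D x 1 4 2 5 = -D x 1 2 4 5 := by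
    rw [s23 hC x 1 2 4 5]
  have e4 : D x 1 4 0 5 = D x 0 1 4 5 := by
    rw [s23 hC x 1 0 4 5, s12 hC x 0 1 4 5]; ring
  have e5 : D x 1 4 2 3 = D x 1 2 3 4 := by
    rw [s23 hC x 1 2 4 3, s34 hC x 1 2 3 4]; ring
  rw [e0, e1, e2, e3, e4, e5] at g
  rw [h] at g
  have m1 := mul_pos p5 p34
  have m2 := mul_pos p9 p30
  linarith

theorem w39 (hG : GpiStmt) (hC : CrmStmt) (x : Fin 8 → E3)
    (hF : ∀ i < 59, i ≠ 39 → 0 < F i x) : F 39 x ≠ 0 := by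
  intro h
  rw [F39] at h
  have p7 := hF 7 (by norm_num) (by norm_num)
  rw [F7] at p7
  have p37 := hF 37 (by norm_num) (by norm_num)
  rw [F37] at p37
  have p14 := hF 14 (by norm_num) (by norm_num)
  rw [F14] at p14
  have p32 := hF 32 (by norm_num) (by norm_num)
  rw [F32] at p32
  have g : D x 1 6 0 2 * D x 1 6 3 7 - D x 1 6 0 3 * D x 1 6 2 7 +
      D x 1 6 0 7 * D x 1 6 2 3 = 0 := hG _ _ _ _ _ _
  have e0 : D x 1 6 0 2 = -D x 0 1 2 6 := by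
    rw [s23 hC x 1 0 6 2, s34 hC x 1 0 2 6, s12 hC x 0 1 2 6]; ring
  have e1 : D x 1 6 3 7 = -D x 1 3 6 7 := by
    rw [s23 hC x 1 3 6 7]
  have e2 : D x 1 6 0 3 = -D x 0 1 3 6 := by
    rw [s23 hC x 1 0 6 3, s34 hC x 1 0 3 6, s12 hC x 0 1 3 6]; ring
  have e3 : D x 1 6 2 7 = -D x 1 2 6 7 := by
    rw [s23 hC x 1 2 6 7]
  have e4 : D x 1 6 0 7 = D x 0 1 6 7 := by
    rw [s23 hC x 1 0 6 7, s12 hC x 0 1 6 7]; ring
  have e5 : D x 1 6 2 3 = D x 1 2 3 6 := by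
    rw [s23 hC x 1 2 6 3, s34 hC x 1 2 3 6]; ring
  rw [e0, e1, e2, e3, e4, e5] at g
  rw [h] at g
  have m1 := mul_pos p7 p37
  have m2 := mul_pos p14 p32
  linarith

theorem w40 (hG : GpiStmt) (hC : CrmStmt) (x : Fin 8 → E3)
    (hF : ∀ i < 59, i ≠ 40 → 0 < F i x) : F 40 x ≠ 0 := by
  intro h
  rw [F40] at h
  have p9 := hF 9 (by norm_num) (by norm_num)
  rw [F9] at p9
  have p42 := hF 42 (by norm_num) (by norm_num)
  rw [F42] at p42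
  have p10 := hF 10 (by norm_num) (by norm_num)
  rw [F10] at p10
  have p41 := hF 41 (by norm_num) (by norm_num)
  rw [F41] at p41
  have g : D x 1 4 0 5 * D x 1 4 6 7 - D x 1 4 0 6 * D x 1 4 5 7 +
      D x 1 4 0 7 * D x 1 4 5 6 = 0 := hG _ _ _ _ _ _
  have e0 : D x 1 4 0 5 = D x 0 1 4 5 := by
    rw [s23 hC x 1 0 4 5, s12 hC x 0 1 4 5]; ring
  have e1 : D x 1 4 0 6 = D x 0 1 4 6 := by
    rw [s23 hC x 1 0 4 6, s12 hC x 0 1 4 6]; ring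
  have e2 : D x 1 4 0 7 = D x 0 1 4 7 := by
    rw [s23 hC x 1 0 4 7, s12 hC x 0 1 4 7]; ring
  rw [e0, e1, e2] at g
  rw [h] at g
  have m1 := mul_pos p9 p42
  have m2 := mul_pos p10 p41
  linarith

theorem w41 (hG : GpiStmt) (hC : CrmStmt) (x : Fin 8 → E3)
    (hF : ∀ i < 59, i ≠ 41 → 0 < F i x) : F 41 x ≠ 0 := by
  intro h
  rw [F41] at h
  rw [neg_eq_zero] at h
  have p9 := hF 9 (by norm_num) (by norm_num)
  rw [F9] at p9
  have p36 := hF 36 (by norm_num) (by norm_num)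
  rw [F36] at p36
  have p13 := hF 13 (by norm_num) (by norm_num)
  rw [F13] at p13
  have p34 := hF 34 (by norm_num) (by norm_num)
  rw [F34] at p34
  have g : D x 1 5 0 2 * D x 1 5 4 7 - D x 1 5 0 4 * D x 1 5 2 7 +
      D x 1 5 0 7 * D x 1 5 2 4 = 0 := hG _ _ _ _ _ _
  have e0 : D x 1 5 0 2 = -D x 0 1 2 5 := by
    rw [s23 hC x 1 0 5 2, s34 hC x 1 0 2 5, s12 hC x 0 1 2 5]; ring
  have e1 : D x 1 5 4 7 = -D x 1 4 5 7 := by
    rw [s23 hC x 1 4 5 7]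
  have e2 : D x 1 5 0 4 = -D x 0 1 4 5 := by
    rw [s23 hC x 1 0 5 4, s34 hC x 1 0 4 5, s12 hC x 0 1 4 5]; ring
  have e3 : D x 1 5 2 7 = -D x 1 2 5 7 := by
    rw [s23 hC x 1 2 5 7]
  have e4 : D x 1 5 0 7 = D x 0 1 5 7 := by
    rw [s23 hC x 1 0 5 7, s12 hC x 0 1 5 7]; ring
  have e5 : D x 1 5 2 4 = D x 1 2 4 5 := by
    rw [s23 hC x 1 2 5 4, s34 hC x 1 2 4 5]; ring
  rw [e0, e1, e2, e3, e4, e5] at g
  rw [h] at g
  have m1 := mul_pos p9 p36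
  have m2 := mul_pos p13 p34
  linarith

theorem w42 (hG : GpiStmt) (hC : CrmStmt) (x : Fin 8 → E3)
    (hF : ∀ i < 59, i ≠ 42 → 0 < F i x) : F 42 x ≠ 0 := by
  intro h
  rw [F42] at h
  rw [neg_eq_zero] at h
  have p14 := hF 14 (by norm_num) (by norm_num)
  rw [F14] at p14
  have p52 := hF 52 (by norm_num) (by norm_num)
  rw [F52] at p52
  have p28 := hF 28 (by norm_num) (by norm_num)
  rw [F28] at p28
  have p37 := hF 37 (by norm_num) (by norm_num)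
  rw [F37] at p37
  have g : D x 6 7 0 1 * D x 6 7 2 4 - D x 6 7 0 2 * D x 6 7 1 4 +
      D x 6 7 0 4 * D x 6 7 1 2 = 0 := hG _ _ _ _ _ _
  have e0 : D x 6 7 0 1 = D x 0 1 6 7 := by
    rw [s23 hC x 6 0 7 1, s34 hC x 6 0 1 7, s12 hC x 0 6 1 7, s23 hC x 0 1 6 7]; ring
  have e1 : D x 6 7 2 4 = D x 2 4 6 7 := by
    rw [s23 hC x 6 2 7 4, s34 hC x 6 2 4 7, s12 hC x 2 6 4 7, s23 hC x 2 4 6 7]; ring
  have e2 : D x 6 7 0 2 = D x 0 2 6 7 := by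
    rw [s23 hC x 6 0 7 2, s34 hC x 6 0 2 7, s12 hC x 0 6 2 7, s23 hC x 0 2 6 7]; ring
  have e3 : D x 6 7 1 4 = D x 1 4 6 7 := by
    rw [s23 hC x 6 1 7 4, s34 hC x 6 1 4 7, s12 hC x 1 6 4 7, s23 hC x 1 4 6 7]; ring
  have e4 : D x 6 7 0 4 = D x 0 4 6 7 := by
    rw [s23 hC x 6 0 7 4, s34 hC x 6 0 4 7, s12 hC x 0 6 4 7, s23 hC x 0 4 6 7]; ring
  have e5 : D x 6 7 1 2 = D x 1 2 6 7 := by
    rw [s23 hC x 6 1 7 2, s34 hC x 6 1 2 7, s12 hC x 1 6 2 7, s23 hC x 1 2 6 7]; ring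
  rw [e0, e1, e2, e3, e4, e5] at g
  rw [h] at g
  have m1 := mul_pos p14 p52
  have m2 := mul_pos p28 p37
  linarith

theorem w43 (hG : GpiStmt) (hC : CrmStmt) (x : Fin 8 → E3)
    (hF : ∀ i < 59, i ≠ 43 → 0 < F i x) : F 43 x ≠ 0 := by
  intro h
  rw [F43] at h
  have p12 := hF 12 (by norm_num) (by norm_num)
  rw [F12] at p12
  have p37 := hF 37 (by norm_num) (by norm_num)
  rw [F37] at p37
  have p14 := hF 14 (by norm_num) (by norm_num)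
  rw [F14] at p14
  have p35 := hF 35 (by norm_num) (by norm_num)
  rw [F35] at p35
  have g : D x 1 6 0 2 * D x 1 6 5 7 - D x 1 6 0 5 * D x 1 6 2 7 +
      D x 1 6 0 7 * D x 1 6 2 5 = 0 := hG _ _ _ _ _ _
  have e0 : D x 1 6 0 2 = -D x 0 1 2 6 := by
    rw [s23 hC x 1 0 6 2, s34 hC x 1 0 2 6, s12 hC x 0 1 2 6]; ring
  have e1 : D x 1 6 5 7 = -D x 1 5 6 7 := by
    rw [s23 hC x 1 5 6 7]
  have e2 : D x 1 6 0 5 = -D x 0 1 5 6 := by
    rw [s23 hC x 1 0 6 5, s34 hC x 1 0 5 6, s12 hC x 0 1 5 6]; ring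
  have e3 : D x 1 6 2 7 = -D x 1 2 6 7 := by
    rw [s23 hC x 1 2 6 7]
  have e4 : D x 1 6 0 7 = D x 0 1 6 7 := by
    rw [s23 hC x 1 0 6 7, s12 hC x 0 1 6 7]; ring
  have e5 : D x 1 6 2 5 = D x 1 2 5 6 := by
    rw [s23 hC x 1 2 6 5, s34 hC x 1 2 5 6]; ring
  rw [e0, e1, e2, e3, e4, e5] at g
  rw [h] at g
  have m1 := mul_pos p12 p37
  have m2 := mul_pos p14 p35
  linarith

theorem w45 (hG : GpiStmt) (hC : CrmStmt) (x : Fin 8 → E3)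
    (hF : ∀ i < 59, i ≠ 45 → 0 < F i x) : F 45 x ≠ 0 := by
  intro h
  rw [F45] at h
  have p15 := hF 15 (by norm_num) (by norm_num)
  rw [F15] at p15
  have p47 := hF 47 (by norm_num) (by norm_num)
  rw [F47] at p47
  have p17 := hF 17 (by norm_num) (by norm_num)
  rw [F17] at p17
  have p44 := hF 44 (by norm_num) (by norm_num)
  rw [F44] at p44
  have g : D x 2 3 0 4 * D x 2 3 5 6 - D x 2 3 0 5 * D x 2 3 4 6 +
      D x 2 3 0 6 * D x 2 3 4 5 = 0 := hG _ _ _ _ _ _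
  have e0 : D x 2 3 0 4 = D x 0 2 3 4 := by
    rw [s23 hC x 2 0 3 4, s12 hC x 0 2 3 4]; ring
  have e1 : D x 2 3 0 5 = D x 0 2 3 5 := by
    rw [s23 hC x 2 0 3 5, s12 hC x 0 2 3 5]; ring
  have e2 : D x 2 3 0 6 = D x 0 2 3 6 := by
    rw [s23 hC x 2 0 3 6, s12 hC x 0 2 3 6]; ring
  rw [e0, e1, e2] at g
  rw [h] at g
  have m1 := mul_pos p15 p47
  have m2 := mul_pos p17 p44
  linarith

theorem w46 (hG : GpiStmt) (hC : CrmStmt) (x : Fin 8 → E3)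
    (hF : ∀ i < 59, i ≠ 46 → 0 < F i x) : F 46 x ≠ 0 := by
  intro h
  rw [F46] at h
  rw [neg_eq_zero] at h
  have p15 := hF 15 (by norm_num) (by norm_num)
  rw [F15] at p15
  have p48 := hF 48 (by norm_num) (by norm_num)
  rw [F48] at p48
  have p18 := hF 18 (by norm_num) (by norm_num)
  rw [F18] at p18
  have p44 := hF 44 (by norm_num) (by norm_num)
  rw [F44] at p44
  have g : D x 2 3 0 4 * D x 2 3 5 7 - D x 2 3 0 5 * D x 2 3 4 7 +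
      D x 2 3 0 7 * D x 2 3 4 5 = 0 := hG _ _ _ _ _ _
  have e0 : D x 2 3 0 4 = D x 0 2 3 4 := by
    rw [s23 hC x 2 0 3 4, s12 hC x 0 2 3 4]; ring
  have e1 : D x 2 3 0 5 = D x 0 2 3 5 := by
    rw [s23 hC x 2 0 3 5, s12 hC x 0 2 3 5]; ring
  have e2 : D x 2 3 0 7 = D x 0 2 3 7 := by
    rw [s23 hC x 2 0 3 7, s12 hC x 0 2 3 7]; ring
  rw [e0, e1, e2] at g
  rw [h] at g
  have m1 := mul_pos p15 p48
  have m2 := mul_pos p18 p44
  linarith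

theorem w48 (hG : GpiStmt) (hC : CrmStmt) (x : Fin 8 → E3)
    (hF : ∀ i < 59, i ≠ 48 → 0 < F i x) : F 48 x ≠ 0 := by
  intro h
  rw [F48] at h
  have p16 := hF 16 (by norm_num) (by norm_num)
  rw [F16] at p16
  have p49 := hF 49 (by norm_num) (by norm_num)
  rw [F49] at p49
  have p18 := hF 18 (by norm_num) (by norm_num)
  rw [F18] at p18
  have p47 := hF 47 (by norm_num) (by norm_num)
  rw [F47] at p47
  have g : D x 2 3 0 5 * D x 2 3 6 7 - D x 2 3 0 6 * D x 2 3 5 7 +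
      D x 2 3 0 7 * D x 2 3 5 6 = 0 := hG _ _ _ _ _ _
  have e0 : D x 2 3 0 5 = D x 0 2 3 5 := by
    rw [s23 hC x 2 0 3 5, s12 hC x 0 2 3 5]; ring
  have e1 : D x 2 3 0 6 = D x 0 2 3 6 := by
    rw [s23 hC x 2 0 3 6, s12 hC x 0 2 3 6]; ring
  have e2 : D x 2 3 0 7 = D x 0 2 3 7 := by
    rw [s23 hC x 2 0 3 7, s12 hC x 0 2 3 7]; ring
  rw [e0, e1, e2] at g
  rw [h] at g
  have m1 := mul_pos p16 p49
  have m2 := mul_pos p18 p47
  linarith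

theorem w50 (hG : GpiStmt) (hC : CrmStmt) (x : Fin 8 → E3)
    (hF : ∀ i < 59, i ≠ 50 → 0 < F i x) : F 50 x ≠ 0 := by
  intro h
  rw [F50] at h
  rw [neg_eq_zero] at h
  have p44 := hF 44 (by norm_num) (by norm_num)
  rw [F44] at p44
  have p52 := hF 52 (by norm_num) (by norm_num)
  rw [F52] at p52
  have p45 := hF 45 (by norm_num) (by norm_num)
  rw [F45] at p45
  have p51 := hF 51 (by norm_num) (by norm_num)
  rw [F51] at p51
  have g : D x 2 4 3 5 * D x 2 4 6 7 - D x 2 4 3 6 * D x 2 4 5 7 +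
      D x 2 4 3 7 * D x 2 4 5 6 = 0 := hG _ _ _ _ _ _
  have e0 : D x 2 4 3 5 = -D x 2 3 4 5 := by
    rw [s23 hC x 2 3 4 5]
  have e1 : D x 2 4 3 6 = -D x 2 3 4 6 := by
    rw [s23 hC x 2 3 4 6]
  have e2 : D x 2 4 3 7 = -D x 2 3 4 7 := by
    rw [s23 hC x 2 3 4 7]
  rw [e0, e1, e2] at g
  rw [h] at g
  have m1 := mul_pos p44 p52
  have m2 := mul_pos p45 p51
  linarith

theorem w51 (hG : GpiStmt) (hC : CrmStmt) (x : Fin 8 → E3)
    (hF : ∀ i < 59, i ≠ 51 → 0 < F i x) : F 51 x ≠ 0 := by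
  intro h
  rw [F51] at h
  have p19 := hF 19 (by norm_num) (by norm_num)
  rw [F19] at p19
  have p48 := hF 48 (by norm_num) (by norm_num)
  rw [F48] at p48
  have p21 := hF 21 (by norm_num) (by norm_num)
  rw [F21] at p21
  have p44 := hF 44 (by norm_num) (by norm_num)
  rw [F44] at p44
  have g : D x 2 5 0 3 * D x 2 5 4 7 - D x 2 5 0 4 * D x 2 5 3 7 +
      D x 2 5 0 7 * D x 2 5 3 4 = 0 := hG _ _ _ _ _ _
  have e0 : D x 2 5 0 3 = -D x 0 2 3 5 := by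
    rw [s23 hC x 2 0 5 3, s34 hC x 2 0 3 5, s12 hC x 0 2 3 5]; ring
  have e1 : D x 2 5 4 7 = -D x 2 4 5 7 := by
    rw [s23 hC x 2 4 5 7]
  have e2 : D x 2 5 0 4 = -D x 0 2 4 5 := by
    rw [s23 hC x 2 0 5 4, s34 hC x 2 0 4 5, s12 hC x 0 2 4 5]; ring
  have e3 : D x 2 5 3 7 = -D x 2 3 5 7 := by
    rw [s23 hC x 2 3 5 7]
  have e4 : D x 2 5 0 7 = D x 0 2 5 7 := by
    rw [s23 hC x 2 0 5 7, s12 hC x 0 2 5 7]; ring
  have e5 : D x 2 5 3 4 = D x 2 3 4 5 := by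
    rw [s23 hC x 2 3 5 4, s34 hC x 2 3 4 5]; ring
  rw [e0, e1, e2, e3, e4, e5] at g
  rw [h] at g
  have m1 := mul_pos p19 p48
  have m2 := mul_pos p21 p44
  linarith

theorem w52 (hG : GpiStmt) (hC : CrmStmt) (x : Fin 8 → E3)
    (hF : ∀ i < 59, i ≠ 52 → 0 < F i x) : F 52 x ≠ 0 := by
  intro h
  rw [F52] at h
  have p45 := hF 45 (by norm_num) (by norm_num)
  rw [F45] at p45
  have p58 := hF 58 (by norm_num) (by norm_num)
  rw [F58] at p58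
  have p50 := hF 50 (by norm_num) (by norm_num)
  rw [F50] at p50
  have p56 := hF 56 (by norm_num) (by norm_num)
  rw [F56] at p56
  have g : D x 4 6 2 3 * D x 4 6 5 7 - D x 4 6 2 5 * D x 4 6 3 7 +
      D x 4 6 2 7 * D x 4 6 3 5 = 0 := hG _ _ _ _ _ _
  have e0 : D x 4 6 2 3 = D x 2 3 4 6 := by
    rw [s23 hC x 4 2 6 3, s34 hC x 4 2 3 6, s12 hC x 2 4 3 6, s23 hC x 2 3 4 6]; ring
  have e1 : D x 4 6 5 7 = -D x 4 5 6 7 := by
    rw [s23 hC x 4 5 6 7]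
  have e2 : D x 4 6 2 5 = -D x 2 4 5 6 := by
    rw [s23 hC x 4 2 6 5, s34 hC x 4 2 5 6, s12 hC x 2 4 5 6]; ring
  have e3 : D x 4 6 3 7 = D x 3 4 6 7 := by
    rw [s23 hC x 4 3 6 7, s12 hC x 3 4 6 7]; ring
  have e4 : D x 4 6 2 7 = D x 2 4 6 7 := by
    rw [s23 hC x 4 2 6 7, s12 hC x 2 4 6 7]; ring
  have e5 : D x 4 6 3 5 = -D x 3 4 5 6 := by
    rw [s23 hC x 4 3 6 5, s34 hC x 4 3 5 6, s12 hC x 3 4 5 6]; ring
  rw [e0, e1, e2, e3, e4, e5] at g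
  rw [h] at g
  have m1 := mul_pos p45 p58
  have m2 := mul_pos p50 p56
  linarith

theorem w53 (hG : GpiStmt) (hC : CrmStmt) (x : Fin 8 → E3)
    (hF : ∀ i < 59, i ≠ 53 → 0 < F i x) : F 53 x ≠ 0 := by
  intro h
  rw [F53] at h
  rw [neg_eq_zero] at h
  have p20 := hF 20 (by norm_num) (by norm_num)
  rw [F20] at p20
  have p49 := hF 49 (by norm_num) (by norm_num)
  rw [F49] at p49
  have p22 := hF 22 (by norm_num) (by norm_num)
  rw [F22] at p22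
  have p47 := hF 47 (by norm_num) (by norm_num)
  rw [F47] at p47
  have g : D x 2 6 0 3 * D x 2 6 5 7 - D x 2 6 0 5 * D x 2 6 3 7 +
      D x 2 6 0 7 * D x 2 6 3 5 = 0 := hG _ _ _ _ _ _
  have e0 : D x 2 6 0 3 = -D x 0 2 3 6 := by
    rw [s23 hC x 2 0 6 3, s34 hC x 2 0 3 6, s12 hC x 0 2 3 6]; ring
  have e1 : D x 2 6 5 7 = -D x 2 5 6 7 := by
    rw [s23 hC x 2 5 6 7]
  have e2 : D x 2 6 0 5 = -D x 0 2 5 6 := by
    rw [s23 hC x 2 0 6 5, s34 hC x 2 0 5 6, s12 hC x 0 2 5 6]; ring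
  have e3 : D x 2 6 3 7 = -D x 2 3 6 7 := by
    rw [s23 hC x 2 3 6 7]
  have e4 : D x 2 6 0 7 = D x 0 2 6 7 := by
    rw [s23 hC x 2 0 6 7, s12 hC x 0 2 6 7]; ring
  have e5 : D x 2 6 3 5 = D x 2 3 5 6 := by
    rw [s23 hC x 2 3 6 5, s34 hC x 2 3 5 6]; ring
  rw [e0, e1, e2, e3, e4, e5] at g
  rw [h] at g
  have m1 := mul_pos p20 p49
  have m2 := mul_pos p22 p47
  linarith

theorem w54 (hG : GpiStmt) (hC : CrmStmt) (x : Fin 8 → E3)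
    (hF : ∀ i < 59, i ≠ 54 → 0 < F i x) : F 54 x ≠ 0 := by
  intro h
  rw [F54] at h
  have p44 := hF 44 (by norm_num) (by norm_num)
  rw [F44] at p44
  have p56 := hF 56 (by norm_num) (by norm_num)
  rw [F56] at p56
  have p45 := hF 45 (by norm_num) (by norm_num)
  rw [F45] at p45
  have p55 := hF 55 (by norm_num) (by norm_num)
  rw [F55] at p55
  have g : D x 3 4 2 5 * D x 3 4 6 7 - D x 3 4 2 6 * D x 3 4 5 7 +
      D x 3 4 2 7 * D x 3 4 5 6 = 0 := hG _ _ _ _ _ _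
  have e0 : D x 3 4 2 5 = D x 2 3 4 5 := by
    rw [s23 hC x 3 2 4 5, s12 hC x 2 3 4 5]; ring
  have e1 : D x 3 4 2 6 = D x 2 3 4 6 := by
    rw [s23 hC x 3 2 4 6, s12 hC x 2 3 4 6]; ring
  have e2 : D x 3 4 2 7 = D x 2 3 4 7 := by
    rw [s23 hC x 3 2 4 7, s12 hC x 2 3 4 7]; ring
  rw [e0, e1, e2] at g
  rw [h] at g
  have m1 := mul_pos p44 p56
  have m2 := mul_pos p45 p55
  linarith

theorem w55 (hG : GpiStmt) (hC : CrmStmt) (x : Fin 8 → E3)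
    (hF : ∀ i < 59, i ≠ 55 → 0 < F i x) : F 55 x ≠ 0 := by
  intro h
  rw [F55] at h
  rw [neg_eq_zero] at h
  have p23 := hF 23 (by norm_num) (by norm_num)
  rw [F23] at p23
  have p58 := hF 58 (by norm_num) (by norm_num)
  rw [F58] at p58
  have p27 := hF 27 (by norm_num) (by norm_num)
  rw [F27] at p27
  have p54 := hF 54 (by norm_num) (by norm_num)
  rw [F54] at p54
  have g : D x 4 5 0 3 * D x 4 5 6 7 - D x 4 5 0 6 * D x 4 5 3 7 +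
      D x 4 5 0 7 * D x 4 5 3 6 = 0 := hG _ _ _ _ _ _
  have e0 : D x 4 5 0 3 = D x 0 3 4 5 := by
    rw [s23 hC x 4 0 5 3, s34 hC x 4 0 3 5, s12 hC x 0 4 3 5, s23 hC x 0 3 4 5]; ring
  have e1 : D x 4 5 0 6 = D x 0 4 5 6 := by
    rw [s23 hC x 4 0 5 6, s12 hC x 0 4 5 6]; ring
  have e2 : D x 4 5 3 7 = D x 3 4 5 7 := by
    rw [s23 hC x 4 3 5 7, s12 hC x 3 4 5 7]; ring
  have e3 : D x 4 5 0 7 = D x 0 4 5 7 := by
    rw [s23 hC x 4 0 5 7, s12 hC x 0 4 5 7]; ring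
  have e4 : D x 4 5 3 6 = D x 3 4 5 6 := by
    rw [s23 hC x 4 3 5 6, s12 hC x 3 4 5 6]; ring
  rw [e0, e1, e2, e3, e4] at g
  rw [h] at g
  have m1 := mul_pos p23 p58
  have m2 := mul_pos p27 p54
  linarith

theorem w57 (hG : GpiStmt) (hC : CrmStmt) (x : Fin 8 → E3)
    (hF : ∀ i < 59, i ≠ 57 → 0 < F i x) : F 57 x ≠ 0 := by
  intro h
  rw [F57] at h
  have p47 := hF 47 (by norm_num) (by norm_num)
  rw [F47] at p47
  have p56 := hF 56 (by norm_num) (by norm_num)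
  rw [F56] at p56
  have p49 := hF 49 (by norm_num) (by norm_num)
  rw [F49] at p49
  have p54 := hF 54 (by norm_num) (by norm_num)
  rw [F54] at p54
  have g : D x 3 6 2 4 * D x 3 6 5 7 - D x 3 6 2 5 * D x 3 6 4 7 +
      D x 3 6 2 7 * D x 3 6 4 5 = 0 := hG _ _ _ _ _ _
  have e0 : D x 3 6 2 4 = -D x 2 3 4 6 := by
    rw [s23 hC x 3 2 6 4, s34 hC x 3 2 4 6, s12 hC x 2 3 4 6]; ring
  have e1 : D x 3 6 5 7 = -D x 3 5 6 7 := by
    rw [s23 hC x 3 5 6 7]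
  have e2 : D x 3 6 2 5 = -D x 2 3 5 6 := by
    rw [s23 hC x 3 2 6 5, s34 hC x 3 2 5 6, s12 hC x 2 3 5 6]; ring
  have e3 : D x 3 6 4 7 = -D x 3 4 6 7 := by
    rw [s23 hC x 3 4 6 7]
  have e4 : D x 3 6 2 7 = D x 2 3 6 7 := by
    rw [s23 hC x 3 2 6 7, s12 hC x 2 3 6 7]; ring
  have e5 : D x 3 6 4 5 = D x 3 4 5 6 := by
    rw [s23 hC x 3 4 6 5, s34 hC x 3 4 5 6]; ring
  rw [e0, e1, e2, e3, e4, e5] at g
  rw [h] at g
  have m1 := mul_pos p47 p56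
  have m2 := mul_pos p49 p54
  linarith

theorem hom_inf0 (x : Fin 8 → E3) : hom x 0 0 = 0 := by simp [hom]
theorem hom_inf7 (x : Fin 8 → E3) : hom x 7 0 = 0 := by simp [hom]
theorem hom_fin (x : Fin 8 → E3) (k : Fin 8) (h : k ≠ 0) (h' : k ≠ 7) : hom x k 0 = 1 := by
  simp [hom, h, h']

theorem w21 (hC : CrmStmt) (x : Fin 8 → E3)
    (hF : ∀ i < 59, i ≠ 21 → 0 < F i x) : F 21 x ≠ 0 := by
  intro h
  rw [F21] at h
  have p13 := hF 13 (by norm_num) (by norm_num)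
  rw [F13] at p13
  have p4 := hF 4 (by norm_num) (by norm_num)
  rw [F4] at p4
  have g := hC.1 (hom x 0) (hom x 1) (hom x 2) (hom x 5) (hom x 7) 0
  rw [hom_inf0, hom_inf7, hom_fin x 1 (by decide) (by decide), hom_fin x 2 (by decide) (by decide),
    hom_fin x 5 (by decide) (by decide)] at g
  have g' : D x 1 2 5 7 * 0 - D x 0 2 5 7 * 1 + D x 0 1 5 7 * 1 - D x 0 1 2 7 * 1 +
      D x 0 1 2 5 * 0 = 0 := g
  rw [h] at g'
  linarith

theorem w24 (hC : CrmStmt) (x : Fin 8 → E3)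
    (hF : ∀ i < 59, i ≠ 24 → 0 < F i x) : F 24 x ≠ 0 := by
  intro h
  rw [F24, neg_eq_zero] at h
  have p28 := hF 28 (by norm_num) (by norm_num)
  rw [F28] at p28
  have p25 := hF 25 (by norm_num) (by norm_num)
  rw [F25] at p25
  have g := hC.1 (hom x 0) (hom x 3) (hom x 4) (hom x 6) (hom x 7) 0
  rw [hom_inf0, hom_inf7, hom_fin x 3 (by decide) (by decide), hom_fin x 4 (by decide) (by decide),
    hom_fin x 6 (by decide) (by decide)] at g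
  have g' : D x 3 4 6 7 * 0 - D x 0 4 6 7 * 1 + D x 0 3 6 7 * 1 - D x 0 3 4 7 * 1 +
      D x 0 3 4 6 * 0 = 0 := g
  rw [h] at g'
  linarith

theorem wln (hG : GpiStmt) (hC : CrmStmt) : WlnStmt := by
  intro x j hj hjl hF
  interval_cases j
  · exact absurd (by decide) hjl
  · exact w1 hG hC x hF
  · exact w2 hG hC x hF
  · exact w3 hG hC x hF
  · exact w4 hG hC x hF
  · exact absurd (by decide) hjl
  · exact w6 hG hC x hF
  · exact w7 hG hC x hF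
  · exact w8 hG hC x hF
  · exact absurd (by decide) hjl
  · exact w10 hG hC x hF
  · exact w11 hG hC x hF
  · exact absurd (by decide) hjl
  · exact w13 hG hC x hF
  · exact absurd (by decide) hjl
  · exact w15 hG hC x hF
  · exact w16 hG hC x hF
  · exact w17 hG hC x hF
  · exact w18 hG hC x hF
  · exact w19 hG hC x hF
  · exact w20 hG hC x hF
  · exact w21 hC x hF
  · exact w22 hG hC x hF
  · exact w23 hG hC x hF
  · exact w24 hC x hF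
  · exact w25 hG hC x hF
  · exact w26 hG hC x hF
  · exact w27 hG hC x hF
  · exact w28 hG hC x hF
  · exact w29 hG hC x hF
  · exact w30 hG hC x hF
  · exact w31 hG hC x hF
  · exact w32 hG hC x hF
  · exact w33 hG hC x hF
  · exact absurd (by decide) hjl
  · exact w35 hG hC x hF
  · exact w36 hG hC x hF
  · exact absurd (by decide) hjl
  · exact w38 hG hC x hF
  · exact w39 hG hC x hF
  · exact w40 hG hC x hF
  · exact w41 hG hC x hF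
  · exact w42 hG hC x hF
  · exact w43 hG hC x hF
  · exact absurd (by decide) hjl
  · exact w45 hG hC x hF
  · exact w46 hG hC x hF
  · exact absurd (by decide) hjl
  · exact w48 hG hC x hF
  · exact absurd (by decide) hjl
  · exact w50 hG hC x hF
  · exact w51 hG hC x hF
  · exact w52 hG hC x hF
  · exact w53 hG hC x hF
  · exact w54 hG hC x hF
  · exact w55 hG hC x hF
  · exact absurd (by decide) hjl
  · exact w57 hG hC x hF
  · exact absurd (by decide) hjl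

end Pool.Agent.LKT.H60
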